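import Pool.Agent.H21.RS.Main

/-!
# MP_47bfa8_co: the equality holds unless `2 k + 1` is a Ramsey number `R(3, l)`
-/

open Pool.Agent.H21.RS

/-- For every `k ≥ 1`: the least splitting sum `q(k)` is `ω(2k+1) - 1` or `ω(2k+1) - 2`, and it
is `ω(2k+1) - 1` whenever `2k+1` is not one of the Ramsey numbers `R(3, l)`. -/
theorem Pool.Agent.Results.MP_47bfa8_co.AlmostAll.result (k : ℕ) (hk : 1 ≤ k) :
    qs k ≤ om (2 * k + 1) - 1 ∧ om (2 * k + 1) - 2 ≤ qs k ∧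
      ((∀ l, R3 l ≠ 2 * k + 1) → qs k = om (2 * k + 1) - 1) :=
  main k hk
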