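import Pool.Agent.H21.RS.Equiv

/-!
# MP_47bfa8_co: Q1 is equivalent to a statement about pairs of Ramsey numbers
-/

open Pool.Agent.H21.RS

/-- Q1 holds if and only if no two even Ramsey numbers `R(3, a + 2)`, `R(3, b + 2)` with
`a ≥ b ≥ 1`, `a ≥ 2` satisfy `R(3, a + b + 2) = R(3, a + 2) + R(3, b + 2) - 3`. -/
theorem Pool.Agent.Results.MP_47bfa8_co.RamseyPairs.result :
    (∀ k, 5 ≤ k → qs k = om (2 * k + 1) - 1) ↔
    ∀ a b, 1 ≤ b → b ≤ a → 2 ≤ a → Even (R3 (a + 2)) → Even (R3 (b + 2)) →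
      R3 (a + b + 2) + 3 ≠ R3 (a + 2) + R3 (b + 2) :=
  equivalence
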